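import Pool.Agent.N162.HN.Stm
import Pool.Agent.N296.CW.SP

/-!
# HN/SP: points in affine `(n + 1)`-space on `n` cylinders and a hypersurface

Project HN of helper162, piece by helper279 (model: `N296/CW/SP.lean` by helper296).
-/

set_option autoImplicit false

open MvPolynomial

namespace Pool.Agent.N279.HN

open Pool.Agent.N162.CV
open Pool.Agent.N296.CW (C_mul_mod' mod_deg mod_deg_le div_deg aeval_deg li li_natDegree)

variable {Ω : Type} [Field Ω]

section div

variable {ι : Type} [Fintype ι] [DecidableEq ι]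

/-! ### division by polynomials in different variables -/

/-- polynomials in the variable `i` -/
noncomputable def em (i : ι) : Polynomial Ω →ₐ[Ω] MvPolynomial ι Ω :=
  Polynomial.aeval (X i)

omit [Fintype ι] [DecidableEq ι] in
theorem em_deg (i : ι) (u : Polynomial Ω) : (em i u).totalDegree ≤ u.natDegree := by
  unfold em
  rw [Polynomial.aeval_eq_sum_range]
  refine totalDegree_finsetSum_le fun j hj => ?_
  refine (totalDegree_smul_le _ _).trans ?_
  rw [totalDegree_X_pow]
  rw [Finset.mem_range] at hj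
  omega

omit [Fintype ι] in
theorem em_deg_ge (i : ι) (u : Polynomial Ω) : u.natDegree ≤ (em i u).totalDegree := by
  have h1 := MvPolynomial.aeval_natDegree_le (n := 1) (em i u) le_rfl
    (fun j : ι => if j = i then (Polynomial.X : Polynomial Ω) else 0) (by
      intro j
      split_ifs
      · exact Polynomial.natDegree_X_le
      · simp)
  rw [mul_one] at h1
  have h2 : (aeval (fun j : ι => if j = i then (Polynomial.X : Polynomial Ω) else 0))
      (em i u) = u := by
    have h : (aeval (fun j : ι => if j = i then (Polynomial.X : Polynomial Ω) else 0)).comp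
        (em i) = AlgHom.id Ω (Polynomial Ω) := by
      apply Polynomial.algHom_ext
      simp [em]
    exact DFunLike.congr_fun h u
  rwa [h2] at h1

omit [Fintype ι] [DecidableEq ι] in
theorem em_deg' (i : ι) {u : Polynomial Ω} {n : ℕ} (h : u.natDegree ≤ n) :
    (em i u).totalDegree ≤ n := (em_deg i u).trans h

omit [DecidableEq ι] in
theorem mon_eq (m : ι →₀ ℕ) : (monomial m 1 : MvPolynomial ι Ω) =
    ∏ i, em i (Polynomial.X ^ m i) := by
  rw [monomial_eq, C_1, one_mul, Finsupp.prod_fintype _ _ (fun _ => pow_zero _)]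
  refine Finset.prod_congr rfl fun i _ => ?_
  rw [map_pow]
  simp [em]

/-- the remainder -/
noncomputable def Rm (α : ι → Polynomial Ω) : MvPolynomial ι Ω →ₗ[Ω] MvPolynomial ι Ω :=
  (basisMonomials ι Ω).constr Ω fun m => ∏ i, em i (Polynomial.X ^ m i % α i)

omit [DecidableEq ι] in
theorem Rm_mon (α : ι → Polynomial Ω) (m : ι →₀ ℕ) : Rm α (monomial m 1) =
    ∏ i, em i (Polynomial.X ^ m i % α i) := by
  have h := (basisMonomials ι Ω).constr_basis Ω (fun m =>
    ∏ i, em i (Polynomial.X ^ m i % α i)) m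
  rw [coe_basisMonomials] at h
  exact h

theorem Rm_one (α : ι → Polynomial Ω) (m : ι →₀ ℕ) (j : ι) (f : Polynomial Ω) :
    Rm α ((∏ i ∈ Finset.univ.erase j, em i (Polynomial.X ^ m i)) * em j f) =
      (∏ i ∈ Finset.univ.erase j, em i (Polynomial.X ^ m i % α i)) * em j (f % α j) := by
  induction f using Polynomial.induction_on' with
  | add p q hp hq =>
    rw [Polynomial.add_mod, map_add, map_add, mul_add, mul_add, map_add, hp, hq]
  | monomial k a =>
    obtain ⟨m', hm1, hm2⟩ : ∃ m' : ι →₀ ℕ, m' j = k ∧ ∀ i, i ≠ j → m' i = m i :=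
      ⟨Finsupp.equivFunOnFinite.symm (Function.update m j k), by simp, fun i hi => by
        simp [hi]⟩
    have h1 := Rm_mon α m'
    rw [mon_eq, ← Finset.prod_erase_mul _ _ (Finset.mem_univ j),
      ← Finset.prod_erase_mul _ _ (Finset.mem_univ j), hm1] at h1
    have h2 : ∏ i ∈ Finset.univ.erase j, em i (Polynomial.X ^ m' i : Polynomial Ω) =
        ∏ i ∈ Finset.univ.erase j, em i (Polynomial.X ^ m i) :=
      Finset.prod_congr rfl fun i hi => by rw [hm2 i (Finset.ne_of_mem_erase hi)]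
    have h3 : ∏ i ∈ Finset.univ.erase j, em i (Polynomial.X ^ m' i % α i) =
        ∏ i ∈ Finset.univ.erase j, em i (Polynomial.X ^ m i % α i) :=
      Finset.prod_congr rfl fun i hi => by rw [hm2 i (Finset.ne_of_mem_erase hi)]
    rw [h2, h3] at h1
    rw [← Polynomial.C_mul_X_pow_eq_monomial, C_mul_mod']
    have e : ∀ (i : ι) (c : Ω) (p : Polynomial Ω), em i (Polynomial.C c * p) =
        c • em i p := by
      intro i c p
      rw [← Polynomial.smul_eq_C_mul, map_smul]
    rw [e, e, mul_smul_comm, mul_smul_comm, map_smul, h1]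

theorem Rm_ideal (α : ι → Polynomial Ω) {P : MvPolynomial ι Ω}
    (h : P ∈ Ideal.span (Set.range fun i => em i (α i))) : Rm α P = 0 := by
  obtain ⟨s, rfl⟩ := (Ideal.mem_span_range_iff_exists_fun).1 h
  have h1 : ∀ (j : ι) (s : MvPolynomial ι Ω), Rm α (s * em j (α j)) = 0 := by
    intro j s
    induction s using MvPolynomial.induction_on' with
    | add p q hp hq => rw [add_mul, map_add, hp, hq, add_zero]
    | monomial m c =>
      have e0 : (monomial m c : MvPolynomial ι Ω) = c • monomial m 1 := by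
        rw [smul_monomial, smul_eq_mul, mul_one]
      rw [e0, smul_mul_assoc, map_smul, mon_eq, ← Finset.prod_erase_mul _ _ (Finset.mem_univ j),
        mul_assoc, ← map_mul, Rm_one]
      have : (Polynomial.X ^ m j * α j) % α j = 0 := by
        rw [EuclideanDomain.mod_eq_zero]
        exact dvd_mul_left _ _
      rw [this, map_zero (em j), mul_zero, smul_zero]
  rw [map_sum]
  exact Finset.sum_eq_zero fun j _ => h1 j (s j)

omit [Fintype ι] [DecidableEq ι] in
theorem tm {P Q : MvPolynomial ι Ω} {i j : ℕ} (hP : P.totalDegree ≤ i)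
    (hQ : Q.totalDegree ≤ j) : (P * Q).totalDegree ≤ i + j :=
  (totalDegree_mul _ _).trans (add_le_add hP hQ)

omit [Fintype ι] in
/-- telescoping -/
theorem tele (α : ι → Polynomial Ω) (hα : ∀ i, 1 ≤ (α i).natDegree) (m : ι → ℕ) (s : Finset ι) :
    ∃ u : ι → MvPolynomial ι Ω, ∏ i ∈ s, em i (Polynomial.X ^ m i) =
      ∑ i ∈ s, u i * em i (α i) + ∏ i ∈ s, em i (Polynomial.X ^ m i % α i) ∧
      ∀ i ∈ s, (u i * em i (α i)).totalDegree ≤ ∑ i ∈ s, m i := by
  induction s using Finset.induction_on with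
  | empty => exact ⟨fun _ => 0, by simp, by simp⟩
  | insert j s hj ih =>
    obtain ⟨u, hu1, hu2⟩ := ih
    have d0 : (Polynomial.X ^ m j : Polynomial Ω).natDegree ≤ m j :=
      Polynomial.natDegree_X_pow_le _
    have q0 := EuclideanDomain.div_add_mod (Polynomial.X ^ m j) (α j)
    have hs : (∏ i ∈ s, em i (Polynomial.X ^ m i : Polynomial Ω)).totalDegree ≤ ∑ i ∈ s, m i :=
      (totalDegree_finsetProd _ _).trans (Finset.sum_le_sum fun i _ =>
        em_deg' i (Polynomial.natDegree_X_pow_le _))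
    obtain ⟨T, hT⟩ : ∃ T : MvPolynomial ι Ω, T = em j (Polynomial.X ^ m j / α j) *
        ∏ i ∈ s, em i (Polynomial.X ^ m i) := ⟨_, rfl⟩
    obtain ⟨T', hT'⟩ : ∃ T' : MvPolynomial ι Ω, T' = em j (Polynomial.X ^ m j % α j) := ⟨_, rfl⟩
    obtain ⟨v, hv1, hv2⟩ : ∃ v : ι → MvPolynomial ι Ω, v j = T ∧ ∀ i, i ≠ j → v i = T' * u i := by
      refine ⟨fun i => if i = j then T else T' * u i, ?_, fun i hi => ?_⟩
      · beta_reduce
        rw [if_pos rfl]
      · beta_reduce
        rw [if_neg hi]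
    rw [hT] at hv1
    rw [hT'] at hv2
    refine ⟨v, ?_, ?_⟩
    · rw [Finset.prod_insert hj, Finset.sum_insert hj, Finset.prod_insert hj, hv1]
      have e1 : em j (Polynomial.X ^ m j) = em j (α j) * em j (Polynomial.X ^ m j / α j) +
          em j (Polynomial.X ^ m j % α j) := by rw [← map_mul, ← map_add, q0]
      have e2 : ∑ i ∈ s, v i * em i (α i) =
          em j (Polynomial.X ^ m j % α j) * ∑ i ∈ s, u i * em i (α i) := by
        rw [Finset.mul_sum]
        refine Finset.sum_congr rfl fun i hi => ?_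
        rw [hv2 i (fun h => hj (h ▸ hi)), mul_assoc]
      rw [e2]
      calc em j (Polynomial.X ^ m j) * ∏ i ∈ s, em i (Polynomial.X ^ m i) =
          (em j (α j) * em j (Polynomial.X ^ m j / α j) + em j (Polynomial.X ^ m j % α j)) *
            ∏ i ∈ s, em i (Polynomial.X ^ m i) := by rw [← e1]
        _ = em j (Polynomial.X ^ m j / α j) * (∏ i ∈ s, em i (Polynomial.X ^ m i)) * em j (α j) +
            em j (Polynomial.X ^ m j % α j) * (∑ i ∈ s, u i * em i (α i) +
              ∏ i ∈ s, em i (Polynomial.X ^ m i % α i)) := by rw [← hu1]; ring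
        _ = _ := by ring
    · intro i hi
      rw [Finset.sum_insert hj]
      rcases Finset.mem_insert.1 hi with h | h
      · subst h
        rw [hv1, mul_right_comm, ← map_mul]
        exact tm (em_deg' _ ((div_deg _ _ (hα _)).trans d0)) hs
      · rw [hv2 i (by rintro rfl; exact hj h), mul_assoc]
        exact tm (em_deg' _ ((mod_deg_le _ _ (hα _)).trans d0)) (hu2 i h)

theorem divide (α : ι → Polynomial Ω) (hα : ∀ i, 1 ≤ (α i).natDegree)
    (P : MvPolynomial ι Ω) (k : ℕ) (hP : P.totalDegree ≤ k) :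
    ∃ u : ι → MvPolynomial ι Ω, P = ∑ i, u i * em i (α i) + Rm α P ∧
      (∀ i, (u i * em i (α i)).totalDegree ≤ k) ∧
      (Rm α P).totalDegree ≤ ∑ i, ((α i).natDegree - 1) := by
  classical
  have hmon : ∀ m ∈ P.support, ∃ u : ι → MvPolynomial ι Ω,
      (monomial m (coeff m P) : MvPolynomial ι Ω) = ∑ i, u i * em i (α i) +
        Rm α (monomial m (coeff m P)) ∧
      (∀ i, (u i * em i (α i)).totalDegree ≤ k) ∧
      (Rm α (monomial m (coeff m P))).totalDegree ≤ ∑ i, ((α i).natDegree - 1) := by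
    intro m hm
    have hmk : ∑ i, m i ≤ k := by
      have := (le_totalDegree hm).trans hP
      rwa [Finsupp.sum_fintype _ _ (fun _ => rfl)] at this
    have e0 : (monomial m (coeff m P) : MvPolynomial ι Ω) = coeff m P • monomial m 1 := by
      rw [smul_monomial, smul_eq_mul, mul_one]
    obtain ⟨c, hc⟩ : ∃ c, c = coeff m P := ⟨_, rfl⟩
    rw [e0, map_smul, Rm_mon, mon_eq, ← hc]
    obtain ⟨u, hu1, hu2⟩ := tele α hα m Finset.univ
    refine ⟨fun i => c • u i, ?_, ?_, ?_⟩
    · rw [hu1, smul_add, Finset.smul_sum]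
      congr 1
      exact Finset.sum_congr rfl fun i _ => (smul_mul_assoc _ _ _).symm
    · intro i
      rw [smul_mul_assoc]
      exact (totalDegree_smul_le _ _).trans ((hu2 i (Finset.mem_univ i)).trans hmk)
    · refine (totalDegree_smul_le _ _).trans ?_
      exact (totalDegree_finsetProd _ _).trans (Finset.sum_le_sum fun i _ =>
        em_deg' i (mod_deg _ _ (hα i)))
  choose! u h1 h2 h3 using hmon
  refine ⟨fun i => ∑ m ∈ P.support, u m i, ?_, ?_, ?_⟩
  · conv_lhs => rw [P.as_sum]
    have e : Rm α P = ∑ m ∈ P.support, Rm α (monomial m (coeff m P)) := by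
      conv_lhs => rw [P.as_sum]
      rw [map_sum]
    have e' : ∑ i, (∑ m ∈ P.support, u m i) * em i (α i) =
        ∑ m ∈ P.support, ∑ i, u m i * em i (α i) := by
      rw [Finset.sum_comm]
      exact Finset.sum_congr rfl fun i _ => Finset.sum_mul ..
    rw [e, e', ← Finset.sum_add_distrib]
    exact Finset.sum_congr rfl fun m hm => h1 m hm
  · intro i
    rw [Finset.sum_mul]
    exact totalDegree_finsetSum_le fun m hm => h2 m hm i
  · have e : Rm α P = ∑ m ∈ P.support, Rm α (monomial m (coeff m P)) := by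
      conv_lhs => rw [P.as_sum]
      rw [map_sum]
    rw [e]
    exact totalDegree_finsetSum_le fun m hm => h3 m hm

/-- the claim (3) -/
theorem claim [IsAlgClosed Ω] (α : ι → Polynomial Ω) (γ : MvPolynomial ι Ω)
    (hα : ∀ i, 1 ≤ (α i).natDegree)
    (h0 : ∀ z : ι → Ω, (∀ i, eval z (em i (α i)) = 0) → eval z γ ≠ 0)
    (c k : ℕ) (hγ : γ.totalDegree ≤ c) (hk : ∑ i, (α i).natDegree + c ≤ k + Fintype.card ι)
    (P : MvPolynomial ι Ω) (hP : P.totalDegree ≤ k) :
    ∃ (u : ι → MvPolynomial ι Ω) (w : MvPolynomial ι Ω), P = ∑ i, u i * em i (α i) + w * γ ∧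
      (∀ i, (u i * em i (α i)).totalDegree ≤ k) ∧ w.totalDegree + c ≤ k := by
  have h1 : Ideal.span (insert γ (Set.range fun i => em i (α i))) = ⊤ := by
    rw [← Ideal.radical_eq_top, ← vanishingIdeal_zeroLocus_eq_radical (K := Ω)]
    rw [Ideal.eq_top_iff_one, mem_vanishingIdeal_iff]
    intro z hz
    exfalso
    rw [mem_zeroLocus_iff] at hz
    refine h0 z (fun i => hz _ (Ideal.subset_span (Set.mem_insert_of_mem _ ⟨i, rfl⟩)))
      (hz _ (Ideal.subset_span (Set.mem_insert _ _)))
  have h2 : (1 : MvPolynomial ι Ω) ∈ Ideal.span (insert γ (Set.range fun i => em i (α i))) := by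
    rw [h1]; trivial
  obtain ⟨s, w0, hw0⟩ : ∃ (s : ι → MvPolynomial ι Ω) (w0 : MvPolynomial ι Ω),
      1 = ∑ i, s i * em i (α i) + w0 * γ := by
    rw [Ideal.mem_span_insert] at h2
    obtain ⟨w0, z, hz, h3⟩ := h2
    obtain ⟨s, h4⟩ := (Ideal.mem_span_range_iff_exists_fun).1 hz
    exact ⟨s, w0, by rw [h3, ← h4]; ring⟩
  obtain ⟨w, hw⟩ : ∃ w, w = Rm α (P * w0) := ⟨_, rfl⟩
  obtain ⟨u1, e1, -, e4⟩ := divide α hα (P * w0) _ le_rfl
  rw [← hw] at e1 e4
  have hsum : ∑ i, ((α i).natDegree - 1) + Fintype.card ι = ∑ i, (α i).natDegree := by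
    have : ∑ i, ((α i).natDegree - 1) + ∑ _i : ι, 1 = ∑ i, (α i).natDegree := by
      rw [← Finset.sum_add_distrib]
      exact Finset.sum_congr rfl fun i _ => Nat.sub_add_cancel (hα i)
    simpa using this
  have hwc : w.totalDegree + c ≤ k := by omega
  have hmem : P - w * γ ∈ Ideal.span (Set.range fun i => em i (α i)) := by
    refine (Ideal.mem_span_range_iff_exists_fun).2 ⟨fun i => P * s i + γ * u1 i, ?_⟩
    have e5 : ∑ i, (P * s i + γ * u1 i) * em i (α i) = P * ∑ i, s i * em i (α i) +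
        γ * ∑ i, u1 i * em i (α i) := by
      rw [Finset.mul_sum, Finset.mul_sum, ← Finset.sum_add_distrib]
      exact Finset.sum_congr rfl fun i _ => by ring
    rw [e5]
    linear_combination (-P) * hw0 - γ * e1
  have hdeg : (P - w * γ).totalDegree ≤ k := by
    refine (totalDegree_sub _ _).trans (max_le hP ?_)
    exact (tm le_rfl hγ).trans hwc
  obtain ⟨u, f1, f2, -⟩ := divide α hα (P - w * γ) k hdeg
  rw [Rm_ideal α hmem, add_zero] at f1
  refine ⟨u, w, ?_, f2, hwc⟩
  linear_combination f1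

end div

/-! ### the hyperplane `x = x₀` in space -/

variable {n : ℕ}

/-- restriction to the hyperplane `x = x₀` -/
noncomputable def sp (x0 : Ω) : MvPolynomial (Fin (n + 1)) Ω →ₐ[Ω] MvPolynomial (Fin n) Ω :=
  aeval (Fin.cons (C x0) X : Fin (n + 1) → MvPolynomial (Fin n) Ω)

/-- extension of functions on the hyperplane -/
noncomputable def tau : MvPolynomial (Fin n) Ω →ₐ[Ω] MvPolynomial (Fin (n + 1)) Ω :=
  aeval fun l => X l.succ

/-- the cylinders -/
noncomputable def cA (l : Fin n) : MvPolynomial (Fin 2) Ω →ₐ[Ω] MvPolynomial (Fin (n + 1)) Ω :=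
  aeval ![X 0, X l.succ]

theorem sp_deg (x0 : Ω) (P : MvPolynomial (Fin (n + 1)) Ω) :
    (sp x0 P).totalDegree ≤ P.totalDegree := by
  refine aeval_deg _ (fun i => ?_) P
  refine Fin.cases ?_ (fun l => ?_) i
  · simp
  · simp

theorem tau_deg (P : MvPolynomial (Fin n) Ω) : (tau P).totalDegree ≤ P.totalDegree := by
  refine aeval_deg _ (fun i => ?_) P
  simp

theorem cA_deg (l : Fin n) (P : MvPolynomial (Fin 2) Ω) :
    (cA l P).totalDegree ≤ P.totalDegree := by
  refine aeval_deg _ (fun i => ?_) P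
  fin_cases i
  · simp
  · simp

theorem sp_tau (x0 : Ω) (P : MvPolynomial (Fin n) Ω) : sp x0 (tau P) = P := by
  have h : (sp x0).comp tau = AlgHom.id Ω (MvPolynomial (Fin n) Ω) := by
    apply MvPolynomial.algHom_ext
    intro i
    simp [sp, tau]
  exact DFunLike.congr_fun h P

theorem sp_cA (x0 : Ω) (l : Fin n) (P : MvPolynomial (Fin 2) Ω) :
    sp x0 (cA l P) = em l (li x0 P) := by
  have h : (sp x0).comp (cA l) = (em l).comp (li x0) := by
    apply MvPolynomial.algHom_ext
    intro i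
    fin_cases i
    · simp only [sp, cA, em, li, AlgHom.comp_apply, aeval_X]
      simp [Polynomial.aeval_C, algebraMap_eq]
    · simp [sp, cA, em, li]
  exact DFunLike.congr_fun h P

/-- the hyperplane -/
noncomputable def ell (x0 : Ω) : MvPolynomial (Fin (n + 1)) Ω := X 0 - C x0

theorem ell_dvd (x0 : Ω) (P : MvPolynomial (Fin (n + 1)) Ω) : ell x0 ∣ P - tau (sp x0 P) := by
  rw [← Ideal.mem_span_singleton, ← Ideal.Quotient.eq]
  have h : Ideal.Quotient.mkₐ Ω (Ideal.span {(ell x0 : MvPolynomial (Fin (n + 1)) Ω)}) =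
      (Ideal.Quotient.mkₐ Ω (Ideal.span {ell x0})).comp (tau.comp (sp x0)) := by
    apply MvPolynomial.algHom_ext
    intro i
    refine Fin.cases ?_ (fun l => ?_) i
    · show Ideal.Quotient.mk (Ideal.span {ell x0}) (X 0) =
        Ideal.Quotient.mk (Ideal.span {ell x0}) (tau (sp x0 (X 0)))
      rw [Ideal.Quotient.eq, Ideal.mem_span_singleton]
      have : tau (sp x0 (X (0 : Fin (n + 1)))) = C x0 := by
        simp [sp, tau, algebraMap_eq]
      rw [this]
      exact dvd_refl _
    · simp [sp, tau]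
  exact DFunLike.congr_fun h P

theorem ell_deg (x0 : Ω) : 1 ≤ (ell x0 : MvPolynomial (Fin (n + 1)) Ω).totalDegree := by
  by_contra hc
  have h1 : (ell x0 : MvPolynomial (Fin (n + 1)) Ω).totalDegree = 0 := by omega
  rw [totalDegree_eq_zero_iff_eq_C] at h1
  have h2 := congrArg (eval (fun _ : Fin (n + 1) => x0 + 1)) h1
  have h3 := congrArg (eval (fun _ : Fin (n + 1) => x0)) h1
  rw [eval_C] at h2 h3
  rw [← h3] at h2
  simp [ell] at h2

/-- products with a cylinder -/
theorem prod_deg {u α : MvPolynomial (Fin n) Ω} {A : MvPolynomial (Fin (n + 1)) Ω} {a k : ℕ}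
    (hα : a ≤ α.totalDegree) (ha : 1 ≤ a) (hA : A.totalDegree ≤ a) (hu : (u * α).totalDegree ≤ k) :
    (tau u * A).totalDegree ≤ k := by
  by_cases hu0 : u = 0
  · rw [hu0, map_zero, zero_mul, totalDegree_zero]
    omega
  · have hα0 : α ≠ 0 := by
      rintro rfl
      rw [totalDegree_zero] at hα
      omega
    have h1 := totalDegree_mul_of_isDomain hu0 hα0
    refine (totalDegree_mul _ _).trans ?_
    have := tau_deg u
    omega

theorem step [IsAlgClosed Ω] {A : Fin n → MvPolynomial (Fin 2) Ω}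
    {G : MvPolynomial (Fin (n + 1)) Ω} {x0 : Ω}
    (hA : ∀ l, MonicY (A l)) (hA1 : ∀ l, 1 ≤ (A l).totalDegree)
    (hx0 : ∀ q : Fin (n + 1) → Ω, (∀ l, eval q (cA l (A l)) = 0) → eval q G = 0 → q 0 ≠ x0)
    {k : ℕ} (hk : ∑ l, (A l).totalDegree + G.totalDegree ≤ k + n)
    {P : MvPolynomial (Fin (n + 1)) Ω} (hP : P.totalDegree ≤ k) :
    ∃ (U : Fin n → MvPolynomial (Fin (n + 1)) Ω) (W Q : MvPolynomial (Fin (n + 1)) Ω),
      P = ∑ l, U l * cA l (A l) + W * G + ell x0 * Q ∧ Q.totalDegree ≤ k - 1 := by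
  have hα := fun l => li_natDegree x0 (A l) (hA l)
  have key : ∀ (z : Fin n → Ω) (H : MvPolynomial (Fin (n + 1)) Ω), eval z (sp x0 H) =
      eval (Fin.cons x0 z : Fin (n + 1) → Ω) H := by
    intro z H
    have h : ((aeval z).comp (sp x0) : MvPolynomial (Fin (n + 1)) Ω →ₐ[Ω] Ω) =
        aeval (Fin.cons x0 z : Fin (n + 1) → Ω) := by
      apply MvPolynomial.algHom_ext
      intro i
      refine Fin.cases ?_ (fun l => ?_) i
      · simp [sp]
      · simp [sp]
    exact DFunLike.congr_fun h H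
  obtain ⟨u, w, h1, h2, h4⟩ := claim (fun l => li x0 (A l)) (sp x0 G)
    (fun l => by rw [hα]; exact hA1 l)
    (by
      intro z hz1 hz3
      rw [key] at hz3
      refine hx0 _ (fun l => ?_) hz3 rfl
      have := hz1 l
      rwa [← sp_cA, key] at this)
    G.totalDegree k (sp_deg x0 G) (by simp only [hα]; simpa using hk) (sp x0 P)
    ((sp_deg x0 P).trans hP)
  obtain ⟨W0, hW⟩ : ∃ W0, W0 = P - (∑ l, tau (u l) * cA l (A l) + tau w * G) := ⟨_, rfl⟩
  have h5 : sp x0 W0 = 0 := by
    rw [hW, map_sub, map_add, map_mul, map_sum, sp_tau]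
    have e1 : ∑ l, sp x0 (tau (u l) * cA l (A l)) = ∑ l, u l * em l (li x0 (A l)) :=
      Finset.sum_congr rfl fun l _ => by rw [map_mul, sp_tau, sp_cA]
    rw [e1, h1, sub_self]
  obtain ⟨Q, hQ⟩ := ell_dvd x0 W0
  rw [h5, map_zero, sub_zero] at hQ
  refine ⟨fun l => tau (u l), tau w, Q, ?_, ?_⟩
  · rw [← hQ, hW]; ring
  · by_cases hQ0 : Q = 0
    · rw [hQ0, totalDegree_zero]; omega
    · have h6 : (ell x0 : MvPolynomial (Fin (n + 1)) Ω) ≠ 0 := by
        intro h
        have := ell_deg (n := n) x0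
        rw [h, totalDegree_zero] at this
        omega
      have h7 := totalDegree_mul_of_isDomain h6 hQ0
      rw [← hQ] at h7
      have h8 : W0.totalDegree ≤ k := by
        rw [hW]
        refine (totalDegree_sub _ _).trans (max_le hP ?_)
        refine (totalDegree_add _ _).trans (max_le ?_ ?_)
        · refine totalDegree_finsetSum_le fun l _ => ?_
          refine prod_deg ?_ (hA1 l) (cA_deg l (A l)) (h2 l)
          have := em_deg_ge l (li x0 (A l))
          rw [hα] at this
          exact this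
        · refine (totalDegree_mul _ _).trans ?_
          have := tau_deg w
          omega
      have := ell_deg (n := n) x0
      omega

/-! ### the end -/

theorem interp {ι : Type} [DecidableEq (ι → Ω)] [Inhabited ι] (S : Finset (ι → Ω)) {q0 : ι → Ω}
    (hq0 : q0 ∈ S) :
    ∃ P : MvPolynomial ι Ω, P.totalDegree ≤ S.card ∧ eval q0 P ≠ 0 ∧
      ∀ q ∈ S, q ≠ q0 → eval q P = 0 := by
  have h : ∀ q : ι → Ω, ∃ κ : ι, q ∈ S.erase q0 → q κ ≠ q0 κ := by
    intro q
    by_cases hq : q ∈ S.erase q0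
    · rw [Finset.mem_erase] at hq
      obtain ⟨κ, hκ⟩ := Function.ne_iff.1 hq.1
      exact ⟨κ, fun _ => hκ⟩
    · exact ⟨default, fun h => absurd h hq⟩
  choose κ hκ using h
  refine ⟨∏ q ∈ S.erase q0, (X (κ q) - C (q (κ q))), ?_, ?_, ?_⟩
  · refine (totalDegree_finsetProd _ _).trans ?_
    calc ∑ q ∈ S.erase q0, (X (κ q) - C (q (κ q)) : MvPolynomial ι Ω).totalDegree
        ≤ ∑ q ∈ S.erase q0, 1 := by
          refine Finset.sum_le_sum fun i _ => ?_
          refine (totalDegree_sub _ _).trans (max_le ?_ ?_)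
          · rw [totalDegree_X]
          · rw [totalDegree_C]; omega
      _ = (S.erase q0).card := by simp
      _ ≤ S.card := Finset.card_le_card (Finset.erase_subset _ _)
  · rw [map_prod]
    refine Finset.prod_ne_zero_iff.2 fun i hi => ?_
    simp only [map_sub, eval_X, eval_C]
    exact sub_ne_zero.2 (hκ i hi).symm
  · intro i hi hne
    rw [map_prod]
    refine Finset.prod_eq_zero (Finset.mem_erase.2 ⟨hne, hi⟩) ?_
    simp

theorem eval_cA (q : Fin (n + 1) → Ω) (l : Fin n) (A : MvPolynomial (Fin 2) Ω) :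
    eval q (cA l A) = eval ![q 0, q l.succ] A := by
  have h : ((aeval q).comp (cA l) : MvPolynomial (Fin 2) Ω →ₐ[Ω] Ω) = aeval ![q 0, q l.succ] := by
    apply MvPolynomial.algHom_ext
    intro i
    fin_cases i <;> simp [cA]
  exact DFunLike.congr_fun h A

/-- **HN/SP** -/
theorem sp_ : Pool.Agent.N162.HN.StSP := by
  classical
  intro n Ω _ _ S lam m A G hS hlam hrel hA hA1 hz hfin
  by_contra hcon
  obtain ⟨q0, hq0⟩ := hS
  have : Infinite Ω := IsAlgClosed.instInfinite
  obtain ⟨x0, hx0⟩ := (hfin.image (fun q => q 0)).infinite_compl.nonempty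
  have hx0' : ∀ q : Fin (n + 1) → Ω, (∀ l, eval q (cA l (A l)) = 0) → eval q G = 0 →
      q 0 ≠ x0 := by
    intro q h1 h3 h4
    apply hx0
    exact ⟨q, ⟨fun l => by rw [← eval_cA]; exact h1 l, h3⟩, h4⟩
  have hz' : ∀ q ∈ S, (∀ l, eval q (cA l (A l)) = 0) ∧ eval q G = 0 := by
    intro q hq
    exact ⟨fun l => by rw [eval_cA]; exact (hz q hq).1 l, (hz q hq).2⟩
  have hne : ∀ q ∈ S, q 0 - x0 ≠ 0 := by
    intro q hq
    obtain ⟨h1, h3⟩ := hz' q hq
    exact sub_ne_zero.2 (hx0' q h1 h3)
  have hrelj : ∀ j : ℕ, ∀ P : MvPolynomial (Fin (n + 1)) Ω, P.totalDegree ≤ m + j →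
      ∑ q ∈ S, lam q / (q 0 - x0) ^ j * eval q P = 0 := by
    intro j
    induction j with
    | zero =>
      intro P hP
      simpa using hrel P hP
    | succ j ih =>
      intro P hP
      obtain ⟨U, W, Q, h1, h2⟩ := step hA hA1 hx0' (k := m + (j + 1)) (by omega) hP
      rw [← ih Q (by omega)]
      refine Finset.sum_congr rfl fun q hq => ?_
      rw [h1]
      obtain ⟨h4, h6⟩ := hz' q hq
      simp only [map_add, map_mul, map_sum, h4, h6, mul_zero, zero_add, Finset.sum_const_zero]
      have h3 := hne q hq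
      have h7 : eval q (ell x0) = q 0 - x0 := by simp [ell]
      rw [h7]
      field_simp
      ring
  obtain ⟨P, hP1, hP2, hP3⟩ := interp S hq0
  have h1 := hrelj S.card P (by omega)
  rw [Finset.sum_eq_single q0] at h1
  · exact (mul_ne_zero (div_ne_zero (hlam q0 hq0) (pow_ne_zero _ (hne q0 hq0))) hP2) h1
  · intro i hi hne
    rw [hP3 i hi hne, mul_zero]
  · intro h
    exact absurd hq0 h

end Pool.Agent.N279.HN
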